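import Pool.Agent.Results.MP_ace4dd_an.NotMonotone
import Pool.Agent.Y958.KN.Base

/-!
# Robust oscillation of the kneading sequence near the quadratic family

Arbitrarily close to the quadratic family (in `C¹`, and in `C^r` as functions of `x`) there are one-parameter families of
unimodal maps, real analytic in `(x, μ)`, along which the kneading sequence goes strictly down and up `m + 2` times in a row,
and this is so for ALL the one-parameter families in a `C⁰` neighbourhood. So the families of question Q1 for which the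
kneading sequence is not monotone have a non-empty interior, even in the `C⁰` topology, in every `C¹` neighbourhood of the
quadratic family. The definitions are those of the starting file `NotMonotone`.
-/

set_option autoImplicit false

namespace Pool.Agent.Results.MP_ace4dd_an.RobustOscillation

open Set Filter Topology
open scoped ENNReal
open Pool.Agent.Results.MP_ace4dd_an.NotMonotone Pool.Agent.Y958.KN

lemma seqLT_of {a b : ℕ → SignType} (ha : a 0 = -1) (hb : b 0 = 1) : SeqLT a b :=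
  ⟨0, fun i hi => absurd hi (Nat.not_lt_zero i), by rw [ha, hb]; decide⟩

lemma not_le_of {a b : ℕ → SignType} (ha : a 0 = 1) (hb : b 0 = -1) : ¬ (a = b ∨ SeqLT a b) := by
  rintro (h | ⟨j, hj, hlt⟩)
  · rw [h, hb] at ha
    exact absurd ha (by decide)
  · rcases Nat.eq_zero_or_pos j with rfl | hj0
    · rw [ha, hb] at hlt
      exact absurd hlt (by decide)
    · have := hj 0 hj0
      rw [ha, hb] at this
      exact absurd this (by decide)

lemma differentiableOn_slice {g : ℝ → ℝ → ℝ} (hg : IsFamily g) {μ : ℝ} (hμ : μ ∈ Ioc (0 : ℝ) 2) :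
    DifferentiableOn ℝ (g μ) (Icc (-1) 1) := by
  have h1 : ContDiffOn ℝ 1 (fun x : ℝ => (x, μ)) (Icc (-1 : ℝ) 1) := by fun_prop
  have h2 : ContDiffOn ℝ 1 ((fun p : ℝ × ℝ => g p.2 p.1) ∘ (fun x : ℝ => (x, μ))) (Icc (-1 : ℝ) 1) :=
    hg.2.comp h1 (fun x hx => ⟨hx, hμ⟩)
  exact h2.differentiableOn (by norm_num)

/-- **Main theorem.** For every `ε > 0`, `r` and `m` there are a one-parameter family `(g_μ)` of unimodal maps, real analytic
in `(x, μ) ∈ ℝ²`, with `C¹` distance less than `ε` from the quadratic family (and with all `x`-derivatives of order at most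
`r` uniformly `ε`-close), each member of which has a unique kneading sequence, parameters `p 0 < p 1 < ... < p (m + 2)` in
`(1, 1 + ε)` and a number `η > 0` such that the following holds for EVERY one-parameter family `(g'_μ)` whose uniform
(`C⁰`) distance to `(g_μ)` is less than `η`:

* if `ν μ` is the kneading sequence of `g'_μ`, then `ν (p 0) > ν (p 1) < ν (p 2) > ν (p 3) < ...` (strictly), up to
  `p (m + 2)` (each inequality holds as soon as the two kneading sequences in it exist);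
* in particular, the kneading sequence is not monotone along `(g'_μ)` (as soon as all the kneading sequences exist). -/
theorem result (ε : ℝ) (hε : 0 < ε) (r m : ℕ) :
    ∃ (g : ℝ → ℝ → ℝ) (η : ℝ) (p : ℕ → ℝ), 0 < η ∧ IsFamily g ∧ c1Dist g quad < ENNReal.ofReal ε ∧
      AnalyticOnNhd ℝ (fun p : ℝ × ℝ => g p.2 p.1) univ ∧
      (∀ μ ∈ Ioc (0 : ℝ) 2, ∀ x ∈ Icc (-1 : ℝ) 1, ∀ k ≤ r,
        |iteratedDerivWithin k (fun y => g μ y - quad μ y) (Icc (-1) 1) x| < ε) ∧
      (∀ μ ∈ Ioc (0 : ℝ) 2, ∃! ν, IsKneading (g μ) ν) ∧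
      (∀ j ≤ m + 2, p j ∈ Ioo 1 (1 + ε) ∧ p j ∈ Ioc (0 : ℝ) 2) ∧ (∀ j < m + 2, p j < p (j + 1)) ∧
      ∀ g' : ℝ → ℝ → ℝ, IsFamily g' →
        (∀ μ ∈ Ioc (0 : ℝ) 2, ∀ x ∈ Icc (-1 : ℝ) 1, |g' μ x - g μ x| < η) →
        (∀ j < m + 2, ∀ a b : ℕ → SignType, IsKneading (g' (p j)) a → IsKneading (g' (p (j + 1))) b →
          (Even j → SeqLT b a) ∧ (Odd j → SeqLT a b)) ∧
        ((∀ μ ∈ Ioc (0 : ℝ) 2, ∃ ν, IsKneading (g' μ) ν) → ¬ KneadingMonotone g') := by
  obtain ⟨J, hJ⟩ : ∃ J : ℕ, J = m + 2 := ⟨_, rfl⟩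
  rw [← hJ]
  have hJ1 : (0 : ℝ) < (J : ℝ) + 1 := by positivity
  obtain ⟨ω, hω⟩ : ∃ ω : ℝ, ω = 2 * Real.pi * ((J : ℝ) + 1) := ⟨_, rfl⟩
  have hω0 : 0 < ω := by rw [hω]; have := Real.pi_pos; positivity
  obtain ⟨M, hM⟩ := exists_nat_gt (8 * ω / ε)
  have hMpos : (0 : ℝ) < M := lt_trans (by positivity) hM
  have hM0 : 0 < M := by exact_mod_cast hMpos
  obtain ⟨N, hN⟩ : ∃ N : ℕ, N = M ^ 2 := ⟨_, rfl⟩
  have hN0 : N ≠ 0 := by rw [hN]; positivity
  obtain ⟨C, hC0, hC⟩ := iter_boundw N r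
  obtain ⟨K, hK⟩ : ∃ K : ℝ, K = 14 + 16 * (M : ℝ) ^ 2 + 4 * ω + C := ⟨_, rfl⟩
  have hKpos : 0 < K := by rw [hK]; positivity
  have hK14 : 14 ≤ K := by
    rw [hK]
    have : 0 ≤ (M : ℝ) ^ 2 := sq_nonneg _
    linarith
  obtain ⟨δ, hδ⟩ : ∃ δ : ℝ, δ = min 1 ε / (4 * K) := ⟨_, rfl⟩
  have hδpos : 0 < δ := by
    rw [hδ]
    exact div_pos (lt_min one_pos hε) (by positivity)
  have hδK : δ * K = min 1 ε / 4 := by rw [hδ]; field_simp
  have hδK1 : δ * K ≤ 1 / 4 := by rw [hδK]; linarith [min_le_left 1 ε]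
  have hδK2 : δ * K ≤ ε / 4 := by rw [hδK]; linarith [min_le_right 1 ε]
  have hsqM : 0 ≤ (M : ℝ) ^ 2 := sq_nonneg _
  have hδ14 : δ * 14 ≤ δ * K := mul_le_mul_of_nonneg_left hK14 hδpos.le
  have hδ1 : δ ≤ 1 := by linarith
  have hδ4 : δ ≤ 1 / 4 := by linarith
  have hδε : δ ≤ ε := by linarith
  have hNr : (N : ℝ) = (M : ℝ) ^ 2 := by rw [hN]; push_cast; ring
  have hδM : δ * (16 * (M : ℝ) ^ 2) ≤ 1 / 4 := by
    refine le_trans (mul_le_mul_of_nonneg_left ?_ hδpos.le) hδK1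
    rw [hK]
    linarith
  have hδN : δ * (2 * N) < 1 := by rw [hNr]; linarith
  have hampN : ∀ μ, |ampw ω δ μ| * (2 * N) < 1 := fun μ =>
    lt_of_le_of_lt (mul_le_mul_of_nonneg_right (abs_ampw ω δ μ hδpos) (by positivity)) hδN
  have hgood : ∀ μ ∈ Ioc (0 : ℝ) 2, ∃ c, Good (famw ω δ N μ) c ∧ hh N (ampw ω δ μ) c = 0 := fun μ hμ =>
    good_of hN0 (hampN μ) hμ
  -- the parameters
  obtain ⟨t, ht⟩ : ∃ t : ℕ → ℝ, t = fun j : ℕ => δ * ((2 * (j : ℝ) + 1) / (4 * ((J : ℝ) + 1))) := ⟨_, rfl⟩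
  have htj : ∀ j, t j = δ * ((2 * (j : ℝ) + 1) / (4 * ((J : ℝ) + 1))) := fun j => by rw [ht]
  have ht0 : ∀ j, 0 < t j := fun j => by rw [htj]; positivity
  have ht1 : ∀ j ≤ J, t j < δ / 2 := by
    intro j hj
    rw [htj]
    have hj' : (j : ℝ) ≤ J := by exact_mod_cast hj
    have h1 : (2 * (j : ℝ) + 1) / (4 * ((J : ℝ) + 1)) < 1 / 2 := by
      rw [div_lt_iff₀ (by positivity)]
      linarith
    calc δ * ((2 * (j : ℝ) + 1) / (4 * ((J : ℝ) + 1))) < δ * (1 / 2) := mul_lt_mul_of_pos_left h1 hδpos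
      _ = δ / 2 := by ring
  have hpI : ∀ j ≤ J, 1 + t j ∈ Ioo 1 (1 + ε) ∧ 1 + t j ∈ Ioc (0 : ℝ) 2 := by
    intro j hj
    have h1 := ht0 j
    have h2 := ht1 j hj
    exact ⟨⟨by linarith, by linarith⟩, ⟨by linarith, by linarith⟩⟩
  have hamp : ∀ j, ampw ω δ (1 + t j) = δ * (-1) ^ j := by
    intro j
    rw [ampw]
    have h1 : ω * (1 + t j - 1) / δ = (j : ℝ) * Real.pi + Real.pi / 2 := by
      rw [htj, hω]
      field_simp
      ring
    rw [h1, Real.sin_add_pi_div_two, Real.cos_nat_mul_pi]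
  have hpow : ∀ j ≤ J, 1 / 2 ≤ (1 - (t j) ^ 2) ^ N := by
    intro j hj
    have h1 := ht0 j
    have h2 := ht1 j hj
    have h3 : (t j) ^ 2 ≤ δ * (1 / 8) := by nlinarith
    have hb : 1 + (N : ℝ) * (-((t j) ^ 2)) ≤ (1 + (-((t j) ^ 2))) ^ N :=
      one_add_mul_le_pow (by nlinarith) N
    have hb3 : (1 - (t j) ^ 2) = 1 + (-((t j) ^ 2)) := by ring
    rw [hb3]
    refine le_trans ?_ hb
    have h4 : (N : ℝ) * (t j) ^ 2 ≤ (N : ℝ) * (δ * (1 / 8)) := mul_le_mul_of_nonneg_left h3 (Nat.cast_nonneg _)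
    rw [hNr] at h4 ⊢
    linarith
  -- position of the turning value
  have hpos : ∀ j ≤ J, ∀ c, Good (famw ω δ N (1 + t j)) c → hh N (ampw ω δ (1 + t j)) c = 0 →
      (Even j → famw ω δ N (1 + t j) c < c) ∧ (Odd j → c < famw ω δ N (1 + t j) c) := by
    intro j hj c hc hc0
    have hval : famw ω δ N (1 + t j) c = t j := by
      rw [famw, hc0]
      ring
    rw [hval]
    have hmono := hh_strictMono (hampN (1 + t j))
    have h1 := ht0 j
    have h2 := ht1 j hj
    have hmem : t j ∈ Icc (-1 : ℝ) 1 := ⟨by linarith, by linarith⟩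
    have h3 := hpow j hj
    have hhv : hh N (ampw ω δ (1 + t j)) (t j) = t j - δ * (-1) ^ j * (1 - (t j) ^ 2) ^ N := by
      rw [hh, hamp]
    constructor
    · intro he
      rw [he.neg_one_pow, mul_one] at hhv
      by_contra hle
      push Not at hle
      have h4 := hmono.monotoneOn hc.mem hmem hle
      rw [hc0, hhv] at h4
      nlinarith
    · intro ho
      rw [ho.neg_one_pow] at hhv
      by_contra hle
      push Not at hle
      have h4 := hmono.monotoneOn hmem hc.mem hle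
      rw [hc0, hhv] at h4
      nlinarith
  -- the robustness radii
  have hrad : ∀ j : ℕ, ∃ e : ℝ, 0 < e ∧ (j ≤ J → ∀ (f' : ℝ → ℝ) (c' : ℝ), IsUnimodal f' c' →
      (∀ x ∈ Icc (-1 : ℝ) 1, |f' x - famw ω δ N (1 + t j) x| < e) →
      (Even j → f' c' < c') ∧ (Odd j → c' < f' c')) := by
    intro j
    by_cases hj : j ≤ J
    · obtain ⟨c, hc, hc0⟩ := hgood _ (hpI j hj).2
      obtain ⟨h1, h2⟩ := hpos j hj c hc hc0
      have hne : famw ω δ N (1 + t j) c ≠ c := by
        rcases Nat.even_or_odd j with h | h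
        · exact (h1 h).ne
        · exact (h2 h).ne'
      obtain ⟨e, he, hrob⟩ := robust hc.toIsUnimodal hne
      refine ⟨e, he, fun _ f' c' h' hcl => ?_⟩
      obtain ⟨h3, h4⟩ := hrob f' c' h' hcl
      exact ⟨fun h => h4 (h1 h), fun h => h3 (h2 h)⟩
    · exact ⟨1, one_pos, fun h => absurd h hj⟩
  choose e he0 he using hrad
  obtain ⟨η, hη0, hη⟩ : ∃ η : ℝ, 0 < η ∧ ∀ j ≤ J, η ≤ e j := by
    have hne : (Finset.range (J + 1)).Nonempty := ⟨0, Finset.mem_range.2 (by omega)⟩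
    exact ⟨(Finset.range (J + 1)).inf' hne e, (Finset.lt_inf'_iff hne).2 fun j _ => he0 j,
      fun j hj => Finset.inf'_le _ (Finset.mem_range.2 (by omega))⟩
  refine ⟨famw ω δ N, η, fun j => 1 + t j, hη0, ⟨?_, (contDiff_famw ω δ N 1).contDiffOn⟩, ?_, ?_, ?_, ?_, hpI, ?_, ?_⟩
  · intro μ hμ
    obtain ⟨c, hc, -⟩ := hgood μ hμ
    exact ⟨c, hc.toIsUnimodal⟩
  · have hb : (13 + 16 * (M : ℝ) ^ 2 + 4 * ω) * δ + 2 * ω / M ≤ ε / 2 := by
      have h1 : 2 * ω / (M : ℝ) ≤ ε / 4 := by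
        rw [div_lt_iff₀ hε] at hM
        rw [div_le_iff₀ hMpos]
        linarith
      have h2 : (13 + 16 * (M : ℝ) ^ 2 + 4 * ω) * δ ≤ δ * K := by
        rw [mul_comm]
        apply mul_le_mul_of_nonneg_left _ hδpos.le
        rw [hK]
        linarith
      linarith
    refine lt_of_le_of_lt ?_ ((ENNReal.ofReal_lt_ofReal_iff hε).2 (half_lt_self hε))
    refine iSup₂_le fun x hx => iSup₂_le fun μ hμ => ENNReal.ofReal_le_ofReal ?_
    rw [hN]
    exact (c1_boundw hω0 hδpos hδ1 hM0 hx hμ).trans hb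
  · exact contDiff_omega_iff_analyticOnNhd.1 (contDiff_famw ω δ N _)
  · intro μ hμ x hx k hk
    have := hC ω δ hδpos hδ1 μ hμ x hx k hk
    have h2 : C * δ ≤ ε / 4 := by
      refine le_trans ?_ hδK2
      rw [mul_comm]
      apply mul_le_mul_of_nonneg_left _ hδpos.le
      rw [hK]
      linarith
    linarith
  · intro μ hμ
    obtain ⟨c, hc, -⟩ := hgood μ hμ
    exact kneading_existsUnique hc
  · intro j _
    show 1 + t j < 1 + t (j + 1)
    rw [htj, htj]
    have h1 : (2 * (j : ℝ) + 1) / (4 * ((J : ℝ) + 1)) < (2 * ((j + 1 : ℕ) : ℝ) + 1) / (4 * ((J : ℝ) + 1)) := by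
      apply div_lt_div_of_pos_right _ (by positivity)
      push_cast
      linarith
    linarith [mul_lt_mul_of_pos_left h1 hδpos]
  · intro g' hg' hcl
    -- the first coefficients
    have hcoef : ∀ j ≤ J, ∀ a : ℕ → SignType, IsKneading (g' (1 + t j)) a →
        (Even j → a 0 = 1) ∧ (Odd j → a 0 = -1) := by
      intro j hj a ha
      have hμ := (hpI j hj).2
      obtain ⟨c', hc'⟩ := hg'.1 _ hμ
      obtain ⟨h1, h2⟩ := he j hj (g' (1 + t j)) c' hc' (fun x hx => lt_of_lt_of_le (hcl _ hμ x hx) (hη j hj))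
      obtain ⟨h3, h4⟩ := kneading0 hc' (differentiableOn_slice hg' hμ) ha
      exact ⟨fun h => h4 (h1 h), fun h => h3 (h2 h)⟩
    constructor
    · intro j hj a b ha hb
      have h1 := hcoef j hj.le a ha
      have h2 := hcoef (j + 1) hj b hb
      exact ⟨fun h => seqLT_of (h2.2 h.add_one) (h1.1 h), fun h => seqLT_of (h1.2 h) (h2.1 h.add_one)⟩
    · intro hex hmon
      choose! ν hν using hex
      have h0 := (hcoef 0 (by omega) _ (hν _ (hpI 0 (by omega)).2)).1 (by decide)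
      have h1 := (hcoef 1 (by omega) _ (hν _ (hpI 1 (by omega)).2)).2 (by decide)
      have h2 := (hcoef 2 (by omega) _ (hν _ (hpI 2 (by omega)).2)).1 (by decide)
      have hlt : ∀ j, t j < t (j + 1) := by
        intro j
        rw [htj, htj]
        apply mul_lt_mul_of_pos_left _ hδpos
        apply div_lt_div_of_pos_right _ (by positivity)
        push_cast
        linarith
      rcases hmon ν hν with h | h
      · exact not_le_of h0 h1 (h _ (hpI 0 (by omega)).2 _ (hpI 1 (by omega)).2 (by linarith [hlt 0]))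
      · exact not_le_of h2 h1 (by
          rcases h _ (hpI 1 (by omega)).2 _ (hpI 2 (by omega)).2 (by linarith [hlt 1]) with h3 | h3
          · exact Or.inl h3.symm
          · exact Or.inr h3)

end Pool.Agent.Results.MP_ace4dd_an.RobustOscillation
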